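import Pool.Agent.H.MP_adc20b_pr.A

/-! Slow switching with overlapping supports need not give evanescence. -/

open MeasureTheory Finset

namespace Pool.Agent.Results.MP_adc20b_pr.Bounded

/-- reactions `y → y2` as pairs -/
abbrev Rx (d : ℕ) : Type := (Fin d → ℕ) × (Fin d → ℕ)

/-- mass-action rate -/
def rate {d : ℕ} (c : ℝ) (r : Rx d) (x : Fin d → ℕ) : ℝ := c * ∏ m, (x m).descFactorial (r.1 m)

/-- the matrix of linear drift -/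
def MM {d : ℕ} (R : Finset (Rx d)) (c : Rx d → ℝ) (m l : Fin d) : ℝ :=
  ∑ r ∈ R with r.1 = Pi.single l 1, c r * ((r.2 m : ℝ) - r.1 m)

/-- jump rates of the mixed process, as a finite measure on target states -/
noncomputable def jump {n d : ℕ} (R : Fin n → Finset (Rx d)) (c : Fin n → Rx d → ℝ) (Q : Fin n → Fin n → ℝ) (κ : ℝ)
    (z : (Fin d → ℕ) × Fin n) : Measure ((Fin d → ℕ) × Fin n) :=
  ∑ r ∈ R z.2, ENNReal.ofReal (rate (c z.2 r) r z.1) • Measure.dirac (z.1 + r.2 - r.1, z.2) +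
    ∑ j ∈ univ.erase z.2, ENNReal.ofReal (κ * Q z.2 j) • Measure.dirac (z.1, j)

theorem result : ∃ (n d : ℕ) (R : Fin n → Finset (Rx d)) (c : Fin n → Rx d → ℝ) (Q : Fin n → Fin n → ℝ)
    (v : Fin n → Fin d → ℝ), (∀ i, ∀ r ∈ R i, 0 < c i r ∧ (r.1 = 0 ∨ ∃ l, r.1 = Pi.single l 1)) ∧
    (∀ i j, i ≠ j → 0 < Q i j) ∧ (∀ i, ∑ j, Q i j = 0) ∧ 2 ≤ n ∧
    (∀ i m, 0 ≤ v i m ∧ (v i m ≠ 0 → 0 < ∑ l, v i l * MM (R i) (c i) l m)) ∧ (∃ s, ∀ j, v j s ≠ 0) ∧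
    ∀ κ ∈ Set.Ioc (0 : ℝ) 2, ∀ (z₀ : (Fin d → ℕ) × Fin n) (Ω : Type) (_ : MeasurableSpace Ω) (P : Measure Ω)
      (Z : ℕ → Ω → (Fin d → ℕ) × Fin n), IsProbabilityMeasure P → (∀ ω, Z 0 ω = z₀) →
      (∀ m (z : ℕ → (Fin d → ℕ) × Fin n), P {ω | ∀ k ≤ m + 1, Z k ω = z k} = P {ω | ∀ k ≤ m, Z k ω = z k} *
        (jump R c Q κ (z m) {z (m + 1)} / jump R c Q κ (z m) Set.univ)) →
      ∀ᵐ ω ∂P, ∃ B, ∀ k, ∑ m, (Z k ω).1 m ≤ B :=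
  Pool.Agent.H.MP_adc20b_pr.main

end Pool.Agent.Results.MP_adc20b_pr.Bounded
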